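import Pool.Agent.H705.TR.Stm

/-! # Package FLB: simple facts on the level at the end -/

set_option autoImplicit false

namespace Pool.Agent.H44.TR

open Pool.Agent.H705.TR

theorem fl_of_le {x : ℕ → ℕ} {n c : ℕ} (h : c ≤ n) : fl x n c = n := by
  rw [fl, dif_pos h]

theorem fl_of_lt {x : ℕ → ℕ} {n c : ℕ} (h : n < c) :
    fl x n c = fl x (n + 1) (c - n - max 1 (G c n (x c)) + (n + 1)) := by
  rw [fl, dif_neg (not_le.mpr h)]

theorem fl_bounds (x : ℕ → ℕ) : ∀ (d n c : ℕ), c - n ≤ d → n ≤ fl x n c ∧ fl x n c ≤ max n c := by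
  intro d
  induction d with
  | zero =>
    intro n c h
    have h1 : c ≤ n := by omega
    rw [fl_of_le h1]
    exact ⟨le_rfl, le_max_left _ _⟩
  | succ d ih =>
    intro n c h
    rcases Nat.lt_or_ge n c with h1 | h1
    · rw [fl_of_lt h1]
      have hg : 1 ≤ max 1 (G c n (x c)) := le_max_left _ _
      generalize max 1 (G c n (x c)) = g at hg ⊢
      obtain ⟨h2, h3⟩ := ih (n + 1) (c - n - g + (n + 1)) (by omega)
      refine ⟨by omega, ?_⟩
      refine h3.trans ?_
      rw [max_eq_right (by omega : n + 1 ≤ c - n - g + (n + 1)), max_eq_right h1.le]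
      omega
    · rw [fl_of_le h1]
      exact ⟨le_rfl, le_max_left _ _⟩

theorem fl_local (x x' : ℕ → ℕ) (w : ℕ) : ∀ (d n c : ℕ), c - n ≤ d →
    (∀ i, w ≤ i → i ≤ c → x i = x' i) → (w ≤ fl x n c ↔ w ≤ fl x' n c) := by
  intro d
  induction d with
  | zero =>
    intro n c h _
    have h1 : c ≤ n := by omega
    rw [fl_of_le h1, fl_of_le h1]
  | succ d ih =>
    intro n c h hx
    rcases Nat.lt_or_ge n c with h1 | h1
    · rcases Nat.lt_or_ge c w with h2 | h2
      · have h3 := (fl_bounds x (c - n) n c le_rfl).2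
        have h4 := (fl_bounds x' (c - n) n c le_rfl).2
        rw [max_eq_right h1.le] at h3 h4
        constructor <;> intro h5 <;> omega
      · rw [fl_of_lt h1, fl_of_lt h1, hx c h2 le_rfl]
        have hg : 1 ≤ max 1 (G c n (x' c)) := le_max_left _ _
        generalize max 1 (G c n (x' c)) = g at hg ⊢
        exact ih (n + 1) (c - n - g + (n + 1)) (by omega) (fun i hi hi' => hx i hi (by omega))
    · rw [fl_of_le h1, fl_of_le h1]

theorem b_cases (n : ℕ) : b n = 0 ∨ b n = 2 ∨ b n = 6 := by
  unfold b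
  split_ifs <;> simp

theorem G_free {c y : ℕ} (h : Free c y) (n : ℕ) : G c n y = 1 := by
  obtain ⟨h0, h2, h6⟩ := h
  unfold G
  rw [if_pos]
  rcases b_cases n with hb | hb | hb <;> rw [hb]
  · exact h0
  · exact h2
  · exact h6

theorem fl_step {x : ℕ → ℕ} {n c : ℕ} (h : n < c) (hG : G c n (x c) = 1) : fl x n c = fl x (n + 1) c := by
  rw [fl_of_lt h, hG, max_self]
  congr 1
  omega

theorem fl_free (x : ℕ → ℕ) : ∀ (d n c : ℕ), c - n ≤ d → n ≤ c → Free c (x c) → fl x n c = c := by
  intro d
  induction d with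
  | zero =>
    intro n c h hn _
    have h1 : c ≤ n := by omega
    rw [fl_of_le h1]
    omega
  | succ d ih =>
    intro n c h hn hF
    rcases Nat.lt_or_ge n c with h1 | h1
    · rw [fl_step h1 (G_free hF n)]
      exact ih (n + 1) c (by omega) (by omega) hF
    · rw [fl_of_le h1]
      omega

theorem fl_run (x : ℕ → ℕ) (c : ℕ) : ∀ (k n : ℕ), n + k ≤ c → (∀ i < k, G c (n + i) (x c) = 1) →
    fl x n c = fl x (n + k) c := by
  intro k
  induction k with
  | zero => intro n _ _; simp
  | succ k ih =>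
    intro n h hG
    rw [fl_step (by omega : n < c) (by simpa using hG 0 (by omega))]
    rw [ih (n + 1) (by omega) (fun i hi => by
      have := hG (i + 1) (by omega)
      rwa [show n + (i + 1) = n + 1 + i by omega] at this)]
    congr 1
    omega

/-- package FLB -/
theorem T_FLB : P_FLB :=
  ⟨fun x n c => fl_bounds x (c - n) n c le_rfl,
   fun x x' w n c h => fl_local x x' w (c - n) n c le_rfl h,
   fun x n c h hF => fl_free x (c - n) n c le_rfl h hF,
   fun x n c k h hG => fl_run x c k n h hG⟩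

end Pool.Agent.H44.TR
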