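import Pool.Agent.H705.TR.Stm

/-! # Package LOW: if the first rough level is free then it is the level at the end -/

set_option autoImplicit false

namespace Pool.Agent.H44.TR

open Pool.Agent.H705.TR

/-- package LOW -/
theorem T_LOW (h1 : P_FLB) (h2 : P_LNK) : P_LOW := by
  intro z L K n c x hOk hR
  obtain ⟨n', c', hn1, hn2, hc1, hc2, hL, hfl, _, hF⟩ := h2 z L Free K n c x hOk hR
  have h3 : fl x n c = c' := by
    rw [hfl]
    exact h1.2.2.1 x n' c' (by omega) hF
  rw [h3]
  exact ⟨hc1, hc2, hF⟩

end Pool.Agent.H44.TR
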